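import Pool.Agent.K1H62.MC.Plan

set_option autoImplicit false

/-! Decay of the potential. -/

namespace Pool.Agent.K1H41.MC

open Pool.Agent.K1H62.MC
open MeasureTheory Filter Topology
open scoped ENNReal ContDiff

noncomputable section

/-- the components of the unit vector from `a` to `x` -/
def nn (a : E) (i : Fin 3) (x : E) : ℝ := (x i - a i) / ‖x - a‖

lemma coord_hasFDerivAt (a : E) (i : Fin 3) (x : E) :
    HasFDerivAt (fun y : E => y i - a i) (EuclideanSpace.proj i : E →L[ℝ] ℝ) x :=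
  ((EuclideanSpace.proj i : E →L[ℝ] ℝ).hasFDerivAt).sub_const (a i)

lemma pd_coord (a : E) (i j : Fin 3) (x : E) :
    pd j (fun y : E => y i - a i) x = if i = j then 1 else 0 := by
  unfold pd
  rw [(coord_hasFDerivAt a i x).fderiv]
  simp

lemma norm_diff {a x : E} (h : x ≠ a) : DifferentiableAt ℝ (fun y : E => ‖y - a‖) x := by
  have h1 : x - a ≠ 0 := sub_ne_zero.mpr h
  exact (differentiableAt_id.sub_const a).norm ℝ h1

lemma pd_norm {a x : E} (h : x ≠ a) (i : Fin 3) : pd i (fun y : E => ‖y - a‖) x = nn a i x := by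
  have h1 : x - a ≠ 0 := sub_ne_zero.mpr h
  have h2 : ‖x - a‖ ≠ 0 := norm_ne_zero_iff.mpr h1
  have hd := norm_diff h
  -- differentiate the square
  have e1 : pd i (fun y : E => ‖y - a‖ ^ 2) x = (2 * ‖x - a‖) * pd i (fun y : E => ‖y - a‖) x := by
    have := pd_pow (f := fun y : E => ‖y - a‖) i 2 hd
    simpa using this
  have e2 : (fun y : E => ‖y - a‖ ^ 2) = fun y => ∑ j, (y j - a j) ^ 2 := by
    funext y
    rw [EuclideanSpace.norm_sq_eq]
    simp
  have e3 : pd i (fun y : E => ∑ j, (y j - a j) ^ 2) x = 2 * (x i - a i) := by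
    have hdj : ∀ j : Fin 3, DifferentiableAt ℝ (fun y : E => y j - a j) x := fun j =>
      (coord_hasFDerivAt a j x).differentiableAt
    have hdj2 : ∀ j ∈ (Finset.univ : Finset (Fin 3)),
        DifferentiableAt ℝ (fun y : E => (y j - a j) ^ 2) x := fun j _ => (hdj j).pow 2
    rw [pd_sum Finset.univ i hdj2]
    rw [Finset.sum_eq_single i]
    · have := pd_pow (f := fun y : E => y i - a i) i 2 (hdj i)
      rw [pd_coord] at this
      simpa using this
    · intro j _ hj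
      have := pd_pow (f := fun y : E => y j - a j) i 2 (hdj j)
      rw [pd_coord, if_neg hj, mul_zero] at this
      exact this
    · intro h; exact absurd (Finset.mem_univ i) h
  rw [e2, e3] at e1
  unfold nn
  field_simp
  linarith

lemma nn_abs (a : E) (i : Fin 3) (x : E) : |nn a i x| ≤ 1 := by
  unfold nn
  rw [abs_div, abs_norm]
  apply div_le_one_of_le₀ _ (norm_nonneg _)
  have := PiLp.norm_apply_le (x - a) i
  simpa using this

lemma nn_diff {a x : E} (h : x ≠ a) (i : Fin 3) : DifferentiableAt ℝ (nn a i) x := by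
  have h2 : ‖x - a‖ ≠ 0 := norm_ne_zero_iff.mpr (sub_ne_zero.mpr h)
  have h3 : DifferentiableAt ℝ (fun y : E => (‖y - a‖)⁻¹) x := (norm_diff h).inv h2
  have h4 : DifferentiableAt ℝ (fun y : E => (y i - a i) * (‖y - a‖)⁻¹) x :=
    (coord_hasFDerivAt a i x).differentiableAt.mul h3
  have e : nn a i = fun y : E => (y i - a i) * (‖y - a‖)⁻¹ := by
    funext y; unfold nn; rw [div_eq_mul_inv]
  rw [e]; exact h4

lemma pd_nn {a x : E} (h : x ≠ a) (i j : Fin 3) :
    pd j (nn a i) x = ((if i = j then 1 else 0) - nn a i x * nn a j x) / ‖x - a‖ := by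
  have h2 : ‖x - a‖ ≠ 0 := norm_ne_zero_iff.mpr (sub_ne_zero.mpr h)
  -- (y i - a i) = nn * norm near x
  have hev : (fun y : E => nn a i y * ‖y - a‖) =ᶠ[𝓝 x] fun y : E => y i - a i := by
    filter_upwards [isOpen_ne.mem_nhds h] with y hy
    have : ‖y - a‖ ≠ 0 := norm_ne_zero_iff.mpr (sub_ne_zero.mpr hy)
    unfold nn
    field_simp
  have h3 := pd_congr j hev
  rw [pd_mul j (nn_diff h i) (norm_diff h), pd_coord, pd_norm h j] at h3
  rw [eq_div_iff h2]
  linarith

lemma pd_nn_abs {a x : E} (h : x ≠ a) (i j : Fin 3) : |pd j (nn a i) x| ≤ 2 / ‖x - a‖ := by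
  rw [pd_nn h, abs_div, abs_norm]
  have h1 := nn_abs a i x
  have h2 := nn_abs a j x
  have h3 : |nn a i x * nn a j x| ≤ 1 := by
    rw [abs_mul]; nlinarith [abs_nonneg (nn a i x), abs_nonneg (nn a j x)]
  have h4 : |(if i = j then (1 : ℝ) else 0)| ≤ 1 := by split_ifs <;> simp
  have h5 : |(if i = j then (1 : ℝ) else 0) - nn a i x * nn a j x| ≤ 2 := by
    have := abs_sub (if i = j then (1 : ℝ) else 0) (nn a i x * nn a j x)
    linarith
  gcongr

/-! ### the function `s` -/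

lemma s_eq (x : E) : s x = ‖x - pp‖ + ‖x - -pp‖ := by
  unfold s; rw [sub_neg_eq_add]

lemma norm_pp : ‖pp‖ = 1 := by unfold pp; simp

lemma ne_of_s {x : E} (h : 2 < s x) : x ≠ pp ∧ x ≠ -pp := by
  constructor
  · rintro rfl
    unfold s at h
    have : ‖pp + pp‖ ≤ 2 := (norm_add_le _ _).trans (by rw [norm_pp]; norm_num)
    simp at h
    linarith
  · rintro rfl
    unfold s at h
    have : ‖-pp - pp‖ ≤ 2 := (norm_sub_le _ _).trans (by rw [norm_neg, norm_pp]; norm_num)
    simp at h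
    linarith

lemma pd_s {x : E} (h : 2 < s x) (i : Fin 3) : pd i s x = nn pp i x + nn (-pp) i x := by
  obtain ⟨h1, h2⟩ := ne_of_s h
  have e : s = fun y => ‖y - pp‖ + ‖y - -pp‖ := funext s_eq
  rw [e, pd_add i (norm_diff h1) (norm_diff h2), pd_norm h1, pd_norm h2]

lemma s_diff {x : E} (h : 2 < s x) : DifferentiableAt ℝ s x := by
  obtain ⟨h1, h2⟩ := ne_of_s h
  have e : s = fun y => ‖y - pp‖ + ‖y - -pp‖ := funext s_eq
  rw [e]
  exact (norm_diff h1).add (norm_diff h2)

lemma pd_s_abs {x : E} (h : 2 < s x) (i : Fin 3) : |pd i s x| ≤ 2 := by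
  rw [pd_s h]
  have h1 := nn_abs pp i x
  have h2 := nn_abs (-pp) i x
  have := abs_add_le (nn pp i x) (nn (-pp) i x)
  linarith

lemma pds_diff {x : E} (h : 2 < s x) (i : Fin 3) : DifferentiableAt ℝ (pd i s) x := by
  obtain ⟨h1, h2⟩ := ne_of_s h
  have hev : (pd i s) =ᶠ[𝓝 x] fun y => nn pp i y + nn (-pp) i y := by
    filter_upwards [(open_s 2).mem_nhds h] with y hy
    exact pd_s hy i
  exact ((nn_diff h1 i).add (nn_diff h2 i)).congr_of_eventuallyEq hev

lemma pd_pd_s {x : E} (h : 2 < s x) (i j : Fin 3) :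
    pd j (pd i s) x = pd j (nn pp i) x + pd j (nn (-pp) i) x := by
  obtain ⟨h1, h2⟩ := ne_of_s h
  rw [pd_congr_set (open_s 2) (g := fun y => nn pp i y + nn (-pp) i y) (fun y hy => pd_s hy i) h,
    pd_add j (nn_diff h1 i) (nn_diff h2 i)]

lemma s_ge (x : E) : 2 * ‖x‖ ≤ s x := by
  unfold s
  have h : ‖(x - pp) + (x + pp)‖ ≤ ‖x - pp‖ + ‖x + pp‖ := norm_add_le _ _
  have e : (x - pp) + (x + pp) = (2 : ℝ) • x := by
    rw [two_smul]; abel
  rw [e, norm_smul] at h
  simpa using h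

lemma r_ge {x : E} (h : 4 ≤ s x) : s x / 4 ≤ ‖x - pp‖ ∧ s x / 4 ≤ ‖x - -pp‖ := by
  have h1 : ‖x - pp‖ ≤ ‖x - -pp‖ + 2 := by
    have e : x - pp = (x - -pp) - (pp + pp) := by abel
    rw [e]
    refine (norm_sub_le _ _).trans ?_
    have : ‖pp + pp‖ ≤ 2 := (norm_add_le _ _).trans (by rw [norm_pp]; norm_num)
    linarith
  have h2 : ‖x - -pp‖ ≤ ‖x - pp‖ + 2 := by
    have e : x - -pp = (x - pp) + (pp + pp) := by abel
    rw [e]
    refine (norm_add_le _ _).trans ?_
    have : ‖pp + pp‖ ≤ 2 := (norm_add_le _ _).trans (by rw [norm_pp]; norm_num)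
    linarith
  have h3 := s_eq x
  constructor <;> linarith

lemma pd_pd_s_abs {x : E} (h : 4 ≤ s x) (i j : Fin 3) : |pd j (pd i s) x| ≤ 16 / s x := by
  have h' : 2 < s x := by linarith
  obtain ⟨h1, h2⟩ := ne_of_s h'
  obtain ⟨h3, h4⟩ := r_ge h
  have hs : 0 < s x := by linarith
  rw [pd_pd_s h']
  have h5 := pd_nn_abs h1 i j
  have h6 := pd_nn_abs h2 i j
  have h7 : 2 / ‖x - pp‖ ≤ 2 / (s x / 4) := by gcongr
  have h8 : 2 / ‖x - -pp‖ ≤ 2 / (s x / 4) := by gcongr
  have h9 := abs_add_le (pd j (nn pp i) x) (pd j (nn (-pp) i) x)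
  have e : 2 / (s x / 4) = 8 / s x := by field_simp; norm_num
  rw [e] at h7 h8
  have e2 : 16 / s x = 8 / s x + 8 / s x := by ring
  linarith

/-! ### the potential -/

/-- the potential as a function of `s` -/
def G (y : ℝ) : ℝ := 1 - Real.log ((y + 2) / (y - 2)) / Real.log 3

lemma u_eq (x : E) : u x = G (s x) := rfl

lemma log3 : 1 ≤ Real.log 3 := by
  rw [Real.le_log_iff_exp_le (by norm_num)]
  linarith [Real.exp_one_lt_d9]

lemma G_deriv {y : ℝ} (h : 2 < y) : HasDerivAt G (4 / Real.log 3 * (y ^ 2 - 4)⁻¹) y := by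
  have h1 : y - 2 ≠ 0 := by linarith
  have h2 : y + 2 ≠ 0 := by linarith
  have h3 : y ^ 2 - 4 ≠ 0 := by nlinarith
  have hl : Real.log 3 ≠ 0 := by linarith [log3]
  have ha : HasDerivAt (fun z : ℝ => (z + 2) / (z - 2)) ((1 * (y - 2) - (y + 2) * 1) / (y - 2) ^ 2) y :=
    ((hasDerivAt_id y).add_const 2).div ((hasDerivAt_id y).sub_const 2) h1
  have hb := (ha.log (div_ne_zero h2 h1)).div_const (Real.log 3)
  have hc := hb.const_sub 1
  refine (show HasDerivAt G _ y from hc).congr_deriv ?_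
  have h4 : y ^ 2 - 4 = (y - 2) * (y + 2) := by ring
  rw [h4]
  field_simp
  ring

lemma pd_u {x : E} (h : 2 < s x) (i : Fin 3) :
    pd i u x = 4 / Real.log 3 * (s x ^ 2 - 4)⁻¹ * pd i s x :=
  pd_comp (φ := G) i (s_diff h) (G_deriv h)

lemma pd_pd_u {x : E} (h : 2 < s x) (i j : Fin 3) :
    pd j (pd i u) x = 4 / Real.log 3 * (s x ^ 2 - 4)⁻¹ * pd j (pd i s) x +
      4 / Real.log 3 * (-(2 * s x) / (s x ^ 2 - 4) ^ 2 * pd j s x) * pd i s x := by
  have h3 : s x ^ 2 - 4 ≠ 0 := by nlinarith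
  have hphi : HasDerivAt (fun y : ℝ => (y ^ 2 - 4)⁻¹) (-(2 * s x) / (s x ^ 2 - 4) ^ 2) (s x) := by
    have := (((hasDerivAt_pow 2 (s x)).sub_const 4).inv h3)
    refine (show HasDerivAt (fun y : ℝ => (y ^ 2 - 4)⁻¹) _ (s x) from this).congr_deriv ?_
    norm_num
  have hd : DifferentiableAt ℝ (fun y => (s y ^ 2 - 4)⁻¹) x :=
    (((s_diff h).pow 2).sub_const 4).inv h3
  rw [pd_congr_set (open_s 2) (g := fun y => 4 / Real.log 3 * (s y ^ 2 - 4)⁻¹ * pd i s y)
    (fun y hy => pd_u hy i) h]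
  rw [pd_mul j (hd.const_mul _) (pds_diff h i), pd_const_mul j _ hd,
    pd_comp (φ := fun y : ℝ => (y ^ 2 - 4)⁻¹) j (s_diff h) hphi]

theorem dec : S_DEC := by
  have hl := log3
  have hl0 : 0 < Real.log 3 := by linarith
  have hc : 4 / Real.log 3 ≤ 4 := by
    rw [div_le_iff₀ hl0]; linarith
  have hc0 : 0 < 4 / Real.log 3 := by positivity
  refine ⟨⟨200, by norm_num, ?_, ?_, ?_⟩, ?_⟩
  · intro x hx
    have hs : 4 ≤ s x := hx
    have h1 := s_ge x
    have h2 : 1 + ‖x‖ ≤ s x := by linarith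
    have hx0 : 0 < 1 + ‖x‖ := by positivity
    have h3 : 1 - u x = Real.log ((s x + 2) / (s x - 2)) / Real.log 3 := by unfold u; ring
    have h4 : 1 ≤ (s x + 2) / (s x - 2) := by
      rw [one_le_div (by linarith)]; linarith
    have h5 : 0 ≤ Real.log ((s x + 2) / (s x - 2)) := Real.log_nonneg h4
    have h6 : Real.log ((s x + 2) / (s x - 2)) ≤ 8 / s x := by
      refine (Real.log_le_sub_one_of_pos (by linarith)).trans ?_
      have h7 : (s x + 2) / (s x - 2) - 1 = 4 / (s x - 2) := by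
        have : s x - 2 ≠ 0 := by linarith
        field_simp; ring
      rw [h7, div_le_div_iff₀ (by linarith) (by linarith)]
      linarith
    rw [h3, abs_of_nonneg (by positivity)]
    calc Real.log ((s x + 2) / (s x - 2)) / Real.log 3 ≤ Real.log ((s x + 2) / (s x - 2)) / 1 := by
          gcongr
      _ ≤ 8 / s x := by rw [div_one]; exact h6
      _ ≤ 200 / (1 + ‖x‖) := by
          rw [div_le_div_iff₀ (by linarith) hx0]
          nlinarith
  · intro x hx i
    have hs : 4 ≤ s x := hx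
    have h1 := s_ge x
    have h2 : 1 + ‖x‖ ≤ s x := by linarith
    have hx0 : 0 < 1 + ‖x‖ := by positivity
    have h3 : 3 / 4 * s x ^ 2 ≤ s x ^ 2 - 4 := by nlinarith
    have hs0 : 0 < s x := by linarith
    have h4 : 0 < s x ^ 2 - 4 := by nlinarith
    have h5 : (s x ^ 2 - 4)⁻¹ ≤ 4 / 3 / s x ^ 2 := by
      rw [inv_eq_one_div, div_le_div_iff₀ h4 (by positivity)]
      nlinarith
    rw [pd_u (by linarith), abs_mul, abs_mul, abs_of_pos hc0, abs_of_pos (inv_pos.mpr h4)]
    have h6 := pd_s_abs (x := x) (by linarith) i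
    calc 4 / Real.log 3 * (s x ^ 2 - 4)⁻¹ * |pd i s x| ≤ 4 * (4 / 3 / s x ^ 2) * 2 := by gcongr
      _ = 32 / 3 / s x ^ 2 := by ring
      _ ≤ 200 / (1 + ‖x‖) ^ 2 := by gcongr; norm_num
  · intro x hx i j
    have hs : 4 ≤ s x := hx
    have h1 := s_ge x
    have h2 : 1 + ‖x‖ ≤ s x := by linarith
    have hx0 : 0 < 1 + ‖x‖ := by positivity
    have h3 : 3 / 4 * s x ^ 2 ≤ s x ^ 2 - 4 := by nlinarith
    have hs0 : 0 < s x := by linarith
    have h4 : 0 < s x ^ 2 - 4 := by nlinarith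
    have h5 : (s x ^ 2 - 4)⁻¹ ≤ 4 / 3 / s x ^ 2 := by
      rw [inv_eq_one_div, div_le_div_iff₀ h4 (by positivity)]
      nlinarith
    have h6 := pd_s_abs (x := x) (by linarith) i
    have h6' := pd_s_abs (x := x) (by linarith) j
    have h7 := pd_pd_s_abs hs i j
    rw [pd_pd_u (by linarith)]
    refine (abs_add_le _ _).trans ?_
    have t1 : |4 / Real.log 3 * (s x ^ 2 - 4)⁻¹ * pd j (pd i s) x| ≤ 256 / 3 / s x ^ 3 := by
      rw [abs_mul, abs_mul, abs_of_pos hc0, abs_of_pos (inv_pos.mpr h4)]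
      calc 4 / Real.log 3 * (s x ^ 2 - 4)⁻¹ * |pd j (pd i s) x| ≤
          4 * (4 / 3 / s x ^ 2) * (16 / s x) := by gcongr
        _ = 256 / 3 / s x ^ 3 := by field_simp; norm_num
    have t2 : |4 / Real.log 3 * (-(2 * s x) / (s x ^ 2 - 4) ^ 2 * pd j s x) * pd i s x| ≤
        512 / 9 / s x ^ 3 := by
      rw [abs_mul, abs_mul, abs_mul, abs_of_pos hc0, abs_div, abs_neg,
        abs_of_pos (show 0 < 2 * s x by linarith), abs_of_pos (show 0 < (s x ^ 2 - 4) ^ 2 by positivity)]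
      calc 4 / Real.log 3 * (2 * s x / (s x ^ 2 - 4) ^ 2 * |pd j s x|) * |pd i s x| ≤
          4 * (2 * s x / (3 / 4 * s x ^ 2) ^ 2 * 2) * 2 := by gcongr
        _ = 512 / 9 / s x ^ 3 := by field_simp; norm_num
    calc _ ≤ 256 / 3 / s x ^ 3 + 512 / 9 / s x ^ 3 := add_le_add t1 t2
      _ = 1280 / 9 / s x ^ 3 := by ring
      _ ≤ 200 / (1 + ‖x‖) ^ 3 := by gcongr; norm_num
  · -- Lipschitz
    refine ⟨2, ?_⟩
    have hG : LipschitzOnWith 1 G (Set.Ici 4) := by
      apply Convex.lipschitzOnWith_of_nnnorm_hasDerivWithin_le (convex_Ici 4)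
        (f' := fun y => 4 / Real.log 3 * (y ^ 2 - 4)⁻¹)
      · intro y hy
        have : (4 : ℝ) ≤ y := hy
        exact (G_deriv (by linarith)).hasDerivWithinAt
      · intro y hy
        have hy4 : (4 : ℝ) ≤ y := hy
        rw [← NNReal.coe_le_coe, coe_nnnorm, NNReal.coe_one, Real.norm_eq_abs]
        have h4 : 12 ≤ y ^ 2 - 4 := by nlinarith
        rw [abs_of_nonneg (by positivity)]
        have h5 : (y ^ 2 - 4)⁻¹ ≤ 12⁻¹ := by gcongr
        have h6 : 0 ≤ (y ^ 2 - 4)⁻¹ := by positivity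
        nlinarith
    have hsL : LipschitzWith 2 s := by
      have h1 : LipschitzWith 1 (fun x : E => ‖x - pp‖) := by
        apply LipschitzWith.of_dist_le_mul
        intro x y
        rw [NNReal.coe_one, one_mul, Real.dist_eq, dist_eq_norm]
        have := abs_norm_sub_norm_le (x - pp) (y - pp)
        rwa [sub_sub_sub_cancel_right] at this
      have h2 : LipschitzWith 1 (fun x : E => ‖x + pp‖) := by
        apply LipschitzWith.of_dist_le_mul
        intro x y
        rw [NNReal.coe_one, one_mul, Real.dist_eq, dist_eq_norm]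
        have := abs_norm_sub_norm_le (x + pp) (y + pp)
        rwa [add_sub_add_right_eq_sub] at this
      have h3 := h1.add h2
      rw [one_add_one_eq_two] at h3
      exact h3
    have := hG.comp (hsL.lipschitzOnWith (s := MM)) (fun x hx => hx)
    rw [one_mul] at this
    exact this

end

end Pool.Agent.K1H41.MC
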